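import Pool.Agent.H9.CA.Tool

/-! DD: elementary maps commute with the definable closure. -/

set_option linter.unusedVariables false

open Ordinal Order Set
open scoped ZFSet

namespace Pool.Agent.H90.CA

open SF CAA

/-- variables beyond the bound `n` are identified with the variable `0` -/
theorem sat_ren (M : V → Prop) (φ : Fml) (l : List V) (w : ℕ → V) (x : V)
    (hw : ∀ i (hi : i < l.length), w i = l[i]) :
    Sat M (φ.rn fun j => if j ≤ l.length then j else 0) (cons x w) ↔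
      Sat M φ (cons x fun i => l.getD i x) := by
  unfold Sat
  rw [satP_rn]
  have e : (fun i => cons x w (if i ≤ l.length then i else 0)) =
      cons x fun i => l.getD i x := by
    funext i
    cases i with
    | zero => rfl
    | succ n =>
      by_cases hn : n + 1 ≤ l.length
      · rw [if_pos hn, cons_succ, cons_succ, hw n (by omega), List.getD_eq_getElem _ _ (by omega)]
      · rw [if_neg hn, cons_succ, cons_zero, List.getD_eq_default _ _ (by omega)]
  rw [e]

/-- the formula which says that `v 0` is the unique element which satisfies `φ` -/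
theorem fml_uniq (φ : Fml) : ∃ ψ : Fml, ∀ (M : V → Prop) (v : ℕ → V), In M v →
    (Sat M ψ v ↔ ∀ x, M x → (Sat M φ (cons x fun i => v (i + 1)) ↔ x = v 0)) := by
  have h1 : Dfb (fun _ => True) (fun M v => Sat M φ v) := ⟨φ, fun _ _ _ _ => Iff.rfl⟩
  obtain ⟨ψ, hψ⟩ := ((h1.rn (shr 1)).iff (Dfb.eq (Tm.var 0) (Tm.var 1))).all
  refine ⟨ψ, fun M v hv => (hψ M trivial v hv).trans ?_⟩
  refine forall_congr' fun x => imp_congr_right fun _ => ?_
  rw [cons_shr_one]
  rfl

theorem map_lift {f Y' Y : V} (hY : ∀ y, y ∈ Y ↔ ∃ u ∈ Y', app f u = y) (l : List V)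
    (hl : ∀ p ∈ l, p ∈ Y) : ∃ l' : List V, (∀ p ∈ l', p ∈ Y') ∧ l'.map (app f) = l := by
  induction l with
  | nil => exact ⟨[], by simp, rfl⟩
  | cons a l ih =>
    obtain ⟨l', h1, h2⟩ := ih fun p hp => hl p (List.mem_cons_of_mem _ hp)
    obtain ⟨u, hu, hua⟩ := (hY a).1 (hl a List.mem_cons_self)
    refine ⟨u :: l', ?_, ?_⟩
    · intro p hp
      rcases List.mem_cons.1 hp with rfl | hp
      · exact hu
      · exact h1 p hp
    · rw [List.map_cons, h2, hua]

/-- DD -/
theorem dd : T_DD := by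
  intro N' N f hf hne Y' Y hY' hY y
  obtain ⟨d, hd⟩ := hne
  have hget : ∀ l : List V, (∀ p ∈ l, p ∈ N') → ∀ i, l.getD i d ∈ N' := by
    intro l hl i
    rw [List.getD_eq_getElem?_getD]
    cases h : l[i]? with
    | none => exact hd
    | some a => exact hl a (List.mem_of_getElem? h)
  -- unique satisfaction in `N'` and in `N`
  have key : ∀ (φ : Fml) (l : List V), (∀ p ∈ l, p ∈ N') → ∃ (ψ : Fml) (w : ℕ → V),
      (∀ i, w i ∈ N') ∧
      (∀ u ∈ N', (Sat (· ∈ N') ψ (cons u w) ↔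
        ∀ x ∈ N', (Sat (· ∈ N') φ (cons x fun i => l.getD i x) ↔ x = u))) ∧
      (∀ z ∈ N, (Sat (· ∈ N) ψ (cons z fun i => app f (w i)) ↔
        ∀ x ∈ N, (Sat (· ∈ N) φ (cons x fun i => (l.map (app f)).getD i x) ↔ x = z))) := by
    intro φ l hl
    obtain ⟨ψ, hψ⟩ := fml_uniq (φ.rn fun j => if j ≤ l.length then j else 0)
    refine ⟨ψ, fun i => l.getD i d, hget l hl, ?_, ?_⟩
    · intro u hu
      rw [hψ (· ∈ N') _ (In.cons (M := (· ∈ N')) (hget l hl) hu)]
      refine forall_congr' fun x => imp_congr_right fun _ => ?_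
      show (Sat _ _ (cons x fun i => l.getD i d) ↔ x = u) ↔ _
      rw [sat_ren _ φ l _ x fun i hi => List.getD_eq_getElem _ _ hi]
    · intro z hz
      rw [hψ (· ∈ N) _ (In.cons (M := (· ∈ N)) (fun i => app_mem hf.func (hget l hl i)) hz)]
      refine forall_congr' fun x => imp_congr_right fun _ => ?_
      show (Sat _ _ (cons x fun i => app f (l.getD i d)) ↔ x = z) ↔ _
      have h1 := sat_ren (· ∈ N) φ (l.map (app f)) (fun i => app f (l.getD i d)) x
        fun i hi => by
          have hi' : i < l.length := by rwa [List.length_map] at hi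
          rw [List.getElem_map]
          show app f (l.getD i d) = _
          rw [List.getD_eq_getElem _ _ hi']
      rw [List.length_map] at h1
      rw [h1]
  have hcons : ∀ (u : V) (w : ℕ → V), (fun i => app f (cons u w i)) =
      cons (app f u) fun i => app f (w i) := by
    intro u w
    funext i
    cases i <;> rfl
  unfold Dcl
  constructor
  · intro h
    obtain ⟨hyN, φ, l, hl, hu⟩ := ZFSet.mem_sep.1 h
    obtain ⟨l', hl', rfl⟩ := map_lift hY l fun p hp => (hl p hp).1
    obtain ⟨ψ, w, hw, h1, h2⟩ := key φ l' fun p hp => hY' (hl' p hp)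
    have h3 : Sat (· ∈ N) (.ex ψ) fun i => app f (w i) := ⟨y, hyN, (h2 y hyN).2 hu⟩
    obtain ⟨u, huN, h4⟩ := (hf.el (.ex ψ) w hw).2 h3
    have h5 := (hf.el ψ _ (In.cons (M := (· ∈ N')) hw huN)).1 h4
    rw [hcons] at h5
    have h6 := (h2 _ (app_mem hf.func huN)).1 h5
    have h7 : y = app f u := (h6 y hyN).1 ((hu y hyN).2 rfl)
    refine ⟨u, ZFSet.mem_sep.2 ⟨huN, φ, l', fun p hp => ⟨hl' p hp, hY' (hl' p hp)⟩, ?_⟩, h7.symm⟩
    exact (h1 u huN).1 h4
  · rintro ⟨u, hu, rfl⟩
    obtain ⟨huN, φ, l', hl', hu'⟩ := ZFSet.mem_sep.1 hu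
    obtain ⟨ψ, w, hw, h1, h2⟩ := key φ l' fun p hp => (hl' p hp).2
    have h4 := (h1 u huN).2 hu'
    have h5 := (hf.el ψ _ (In.cons (M := (· ∈ N')) hw huN)).1 h4
    rw [hcons] at h5
    have hfu := app_mem hf.func huN
    refine ZFSet.mem_sep.2 ⟨hfu, φ, l'.map (app f), ?_, (h2 _ hfu).1 h5⟩
    intro p hp
    obtain ⟨q, hq, rfl⟩ := List.mem_map.1 hp
    exact ⟨(hY _).2 ⟨q, (hl' q hq).1, rfl⟩, app_mem hf.func (hl' q hq).2⟩

end Pool.Agent.H90.CA
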