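import Pool.Agent.H9.CA.Tool

/-! DE: closure of elementary submodels under definable functions; unions of chains. -/

set_option linter.unusedVariables false

open Ordinal Order Set
open scoped ZFSet

namespace Pool.Agent.H90.CA

open SF CAA

/-- finitely many elements of the union of a chain lie in one member -/
theorem chain_fin {S : V} (hne : S.Nonempty) (hc : ∀ X ∈ S, ∀ Y ∈ S, X ⊆ Y ∨ Y ⊆ X)
    (v : ℕ → V) (hv : ∀ i, v i ∈ (⋃₀ S : ZFSet)) (n : ℕ) : ∃ X ∈ S, ∀ i < n, v i ∈ X := by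
  induction n with
  | zero =>
    obtain ⟨X, hX⟩ := hne
    exact ⟨X, hX, fun i hi => absurd hi (Nat.not_lt_zero i)⟩
  | succ n ih =>
    obtain ⟨X, hX, h⟩ := ih
    obtain ⟨Y, hY, hn⟩ := ZFSet.mem_sUnion.1 (hv n)
    rcases hc X hX Y hY with h1 | h1
    · refine ⟨Y, hY, fun i hi => ?_⟩
      rcases Nat.lt_succ_iff_lt_or_eq.1 hi with h2 | h2
      · exact h1 (h i h2)
      · rw [h2]
        exact hn
    · refine ⟨X, hX, fun i hi => ?_⟩
      rcases Nat.lt_succ_iff_lt_or_eq.1 hi with h2 | h2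
      · exact h i h2
      · rw [h2]
        exact h1 hn

theorem chain_el (N S : V) (hne : S.Nonempty) (hS : ∀ X ∈ S, ElSub X N)
    (hc : ∀ X ∈ S, ∀ Y ∈ S, X ⊆ Y ∨ Y ⊆ X) : ElSub (⋃₀ S : ZFSet) N := by
  have hsub : (⋃₀ S : ZFSet) ⊆ N := by
    intro x hx
    obtain ⟨X, hX, h⟩ := ZFSet.mem_sUnion.1 hx
    exact (hS X hX).1 h
  refine ⟨hsub, ?_⟩
  intro φ
  unfold Sat
  induction φ with
  | mem i j => intro v hv; exact Iff.rfl
  | eq i j => intro v hv; exact Iff.rfl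
  | prd i => intro v hv; exact Iff.rfl
  | neg φ ih => intro v hv; exact not_congr (ih v hv)
  | and φ ψ ih1 ih2 => intro v hv; exact and_congr (ih1 v hv) (ih2 v hv)
  | ex φ ih =>
    intro v hv
    constructor
    · rintro ⟨x, hx, h⟩
      exact ⟨x, hsub hx, (ih _ (In.cons (M := (· ∈ (⋃₀ S : ZFSet))) hv hx)).1 h⟩
    · intro h
      obtain ⟨X, hX, hvX⟩ := chain_fin hne hc v hv ((Fml.ex φ).bd + 1)
      have h0 : v 0 ∈ X := hvX 0 (Nat.succ_pos _)
      set w : ℕ → V := fun i => if i < (Fml.ex φ).bd then v i else v 0 with hw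
      have hwX : ∀ i, w i ∈ X := by
        intro i
        rw [hw]
        show (if i < (Fml.ex φ).bd then v i else v 0) ∈ X
        split_ifs with hi
        · exact hvX i (Nat.lt_succ_of_lt hi)
        · exact h0
      have hvw : ∀ i < (Fml.ex φ).bd, v i = w i := by
        intro i hi
        rw [hw]
        show v i = if i < (Fml.ex φ).bd then v i else v 0
        rw [if_pos hi]
      have h1 : SatP (· ∈ N) (fun _ => False) (.ex φ) w :=
        (satP_congr _ _ _ _ _ hvw).1 h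
      have h2 : SatP (· ∈ X) (fun _ => False) (.ex φ) w := ((hS X hX).2 (.ex φ) w hwX).2 h1
      obtain ⟨x, hx, h3⟩ := h2
      have h4 : SatP (· ∈ N) (fun _ => False) φ (cons x w) :=
        ((hS X hX).2 φ _ (In.cons (M := (· ∈ X)) hwX hx)).1 h3
      have h5 : SatP (· ∈ N) (fun _ => False) φ (cons x v) := by
        refine (satP_congr _ _ _ _ _ fun i hi => ?_).1 h4
        cases i with
        | zero => rfl
        | succ n =>
          show w n = v n
          refine (hvw n ?_).symm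
          show n < φ.bd - 1
          omega
      have hxU : x ∈ (⋃₀ S : ZFSet) := ZFSet.mem_sUnion.2 ⟨X, hX, hx⟩
      exact ⟨x, hxU, (ih _ (In.cons (M := (· ∈ (⋃₀ S : ZFSet))) hv hxU)).2 h5⟩

/-- DE -/
theorem de : T_DE := by
  refine ⟨?_, chain_el⟩
  intro N X hX k F hF v hv
  obtain ⟨h0, φ, hφ⟩ := hF
  have hvN : In (· ∈ N) v := fun i => hX.1 (hv i)
  have h1 : ∀ y ∈ N, (Sat (· ∈ N) φ (cons y v) ↔ y = F (· ∈ N) v) := by
    intro y hy
    exact hφ (· ∈ N) k (cons y v) (hvN.cons hy)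
  have h2 : Sat (· ∈ N) (.ex φ) v := ⟨_, h0 (· ∈ N) k v hvN, (h1 _ (h0 (· ∈ N) k v hvN)).2 rfl⟩
  obtain ⟨y, hy, h3⟩ := (hX.2 (.ex φ) v hv).2 h2
  have h4 : Sat (· ∈ N) φ (cons y v) := (hX.2 φ _ (In.cons (M := (· ∈ X)) hv hy)).1 h3
  rw [← (h1 y (hX.1 hy)).1 h4]
  exact hy

end Pool.Agent.H90.CA
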