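import Pool.Agent.H9.CA.Tool

/-! DJ: the collapse function is uniformly definable. -/

set_option linter.unusedVariables false

open Ordinal Order Set
open scoped ZFSet

namespace Pool.Agent.H90.CA

open SF CAA

theorem mem_clp {X x y : V} : y ∈ clp X x ↔ ∃ z ∈ x, z ∈ X ∧ y = clp X z := by
  rw [clp, ZFSet.mem_range]
  constructor
  · rintro ⟨⟨z, hz⟩, rfl⟩
    exact ⟨z, (ZFSet.mem_inter.1 hz).1, (ZFSet.mem_inter.1 hz).2, rfl⟩
  · rintro ⟨z, h1, h2, rfl⟩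
    exact ⟨⟨z, ZFSet.mem_inter.2 ⟨h1, h2⟩⟩, rfl⟩

theorem tm_clp0 : Tm ZFm (fun _ v => clp (v 1) (v 0)) := by
  refine tm_recu (ext := fun _ v => v 0 ∩ v 1)
    (Φ := fun _ u => imS (u 1 ∩ u 2) fun z => app (u 0) z)
    ZFSet.rank (Tm.inter (Tm.var 0) (Tm.var 1)) ?_ ?_ ?_
  · exact Tm.image (g := fun _ u => app (u 1) (u 0)) (Tm.inter (Tm.var 1) (Tm.var 2))
      (Tm.app (Tm.var 1) (Tm.var 0))
  · intro M k v hv y hy
    exact ZFSet.rank_lt_of_mem (ZFSet.mem_inter.1 hy).1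
  · intro M k v hv
    ext y
    rw [mem_clp]
    simp only [mem_imS, cons_zero, cons_succ, ZFSet.mem_inter]
    constructor
    · rintro ⟨z, h1, h2, rfl⟩
      refine ⟨z, ⟨h1, h2⟩, ?_⟩
      rw [app_resS (ZFSet.mem_inter.2 ⟨h1, h2⟩)]
    · rintro ⟨z, ⟨h1, h2⟩, rfl⟩
      refine ⟨z, h1, h2, ?_⟩
      rw [app_resS (ZFSet.mem_inter.2 ⟨h1, h2⟩)]

/-- DJ -/
theorem dj : T_DJ :=
  ⟨fun _ _ _ => mem_clp, tm_clp0.rn fun i => if i = 0 then 1 else 0⟩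

end Pool.Agent.H90.CA
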