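import Pool.Agent.H90.CA.DJ
import Pool.Agent.H58.SF.LCO

/-! DK: the collapse of an elementary submodel of a transitive set. -/

set_option linter.unusedVariables false

open Ordinal Order Set
open scoped ZFSet

namespace Pool.Agent.H90.CA

open SF CAA

/-- DK -/
theorem dk : T_DK := by
  intro N X hN hne hX
  obtain ⟨N', f, tN', hel, hr, -, hm, ht⟩ := SF.H58.lco N X hN hne hX
  have key : ∀ u, u ∈ N' → clp X (app f u) = u := by
    intro u
    induction u using ZFSet.inductionOn with
    | _ u ih =>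
      intro hu
      ext y
      rw [mem_clp]
      constructor
      · rintro ⟨z, hz, hzX, rfl⟩
        obtain ⟨w, hw, rfl⟩ := (hr z).1 hzX
        have h1 : w ∈ u := (hm u hu w).2 ⟨hw, hz⟩
        rw [ih w h1 hw]
        exact h1
      · intro hy
        obtain ⟨h1, h2⟩ := (hm u hu y).1 hy
        exact ⟨app f y, h2, (hr _).2 ⟨y, h1, rfl⟩, (ih y hy h1).symm⟩
  have e : (imS X fun x => clp X x) = N' := by
    ext u
    rw [mem_imS]
    constructor
    · rintro ⟨x, hx, rfl⟩
      obtain ⟨w, hw, rfl⟩ := (hr x).1 hx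
      rw [key w hw]
      exact hw
    · intro hu
      exact ⟨app f u, (hr _).2 ⟨u, hu, rfl⟩, key u hu⟩
  rw [e]
  refine ⟨f, hel, tN', hr, ?_, hm, ?_⟩
  · intro x hx
    obtain ⟨w, hw, rfl⟩ := (hr x).1 hx
    rw [key w hw]
  · intro t ht' htX u hu
    obtain ⟨h1, h2⟩ := ht t ht' htX u hu
    have h3 := key u h1
    rw [h2] at h3
    exact ⟨h3, h2⟩

end Pool.Agent.H90.CA
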