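import Pool.Agent.H9.CA.TarG
import Pool.Agent.H14.SF.LHE
import Pool.Agent.H68.SF.LDX

/-! GH: more on sizes in the ground model. -/

set_option linter.unusedVariables false

open Ordinal Order Set
open scoped ZFSet

namespace Pool.Agent.H90.CA

open SF CAA

theorem lvl_height (z : Ordinal.{0}) (k : ZFm (· ∈ LA ∅ z)) : ω < z ∧ IsSuccLimit z ∧
    ∀ α : Ordinal.{0}, α.toZFSet ∈ LA ∅ z ↔ α < z := by
  have h0 : (∅ : V) ∈ Lh ∅ ∅ z := k.mempty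
  obtain ⟨h1, h2⟩ := pf_LHE pf_LHT ∅ ∅ z (fun y hy => absurd hy (ZFSet.notMem_empty y)) k h0 h0
  exact ⟨(h2 ω).1 k.inf, h1, h2⟩

/-- GH -/
theorem pf_GH (hGC : T_GC) (hDH : T_DH) (hDU : T_DU) : T_GH := by
  intro D hD
  refine ⟨?_, ?_, lvl_height⟩
  · intro i hi
    have hγκ := hD.sz.γκ i hi
    have hμκ := hD.sz.μκ i hi
    have hκθ : D.κ < D.θ := hD.grd.κχ.trans hD.grd.χθ
    obtain ⟨h1, h2, h3⟩ := lvl_height (D.γ i) (hD.sz.zγ i hi)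
    have hG : Gd (LA ∅ (D.γ i)) := hGC _ h2 h1
    have hM : LA ∅ (D.γ i) ∈ LA ∅ D.θ := Lh_mem (hγκ.trans hκθ)
    obtain ⟨-, h4, h5⟩ := hDH (· ∈ LA ∅ D.θ) hD.grd.zfc _ hM hG (D.μ i)
      ((hD.grd.ord _).2 (hμκ.trans hκθ)) (hD.sz.sm i hi) (hD.sz.ns i hi)
    exact ⟨hG, hM, h5, h4, hD.grd.powκ _ (Lh_mem hμκ)⟩
  · intro z hz k
    obtain ⟨-, -, h3⟩ := lvl_height z k
    obtain ⟨-, -, -, -, h5⟩ := hDU (· ∈ LA ∅ z) ∅ z k k.mempty h3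
    exact (h5 fun x hx => absurd hx (ZFSet.notMem_empty x)).2

end Pool.Agent.H90.CA
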