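import Pool.Agent.H9.CA.TarG

/-! HA: the recursion equation of the chain function, and its definability. -/

set_option linter.unusedVariables false

open Ordinal Order Set
open scoped ZFSet

namespace Pool.Agent.H90.CA

open SF CAA

theorem Hc_eq (N a x : V) : Hc N a x = Dcl N ({a} ∪ (⋃₀ (imS x fun l => Hc N a l) : ZFSet) ∪
    imS x fun l => resS (insert l l) fun l' => Hc N a l') := by
  rw [Hc]
  rfl

theorem tm_Hc0 (hDB : T_DB) : Tm ZFm (fun _ v => Hc (v 1) (v 2) (v 0)) := by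
  refine tm_recu (ext := fun _ v => v 0 ∪ (⋃₀ (v 0) : ZFSet))
    (Φ := fun _ u => Dcl (u 2) ({u 3} ∪ (⋃₀ (imS (u 1) fun l => app (u 0) l) : ZFSet) ∪
      imS (u 1) fun l => resS (insert l l) fun l' => app (u 0) l'))
    ZFSet.rank (Tm.union (Tm.var 0) (Tm.sUnion (Tm.var 0))) ?_ ?_ ?_
  · refine Tm.at2 (F := fun _ x y => Dcl x y) hDB (Tm.var 2)
      (Tm.union (Tm.union (Tm.sing (Tm.var 3)) ?_) ?_)
    · exact Tm.iUn (g := fun _ u => app (u 1) (u 0)) (Tm.var 1) (Tm.app (Tm.var 1) (Tm.var 0))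
    · exact Tm.image (g := fun _ u => resS (insert (u 0) (u 0)) fun l' => app (u 1) l') (Tm.var 1)
        (Tm.resS (g := fun _ u => app (u 2) (u 0)) (Tm.ins (Tm.var 0) (Tm.var 0))
          (Tm.app (Tm.var 2) (Tm.var 0)))
  · intro M k v hv y hy
    rcases ZFSet.mem_union.1 hy with h | h
    · exact ZFSet.rank_lt_of_mem h
    · obtain ⟨z, hz, hyz⟩ := ZFSet.mem_sUnion.1 h
      exact (ZFSet.rank_lt_of_mem hyz).trans (ZFSet.rank_lt_of_mem hz)
  · intro M k v hv
    simp only [cons_zero, cons_succ]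
    rw [Hc_eq]
    have e1 : (imS (v 0) fun l => Hc (v 1) (v 2) l) = imS (v 0) fun l =>
        app (resS (v 0 ∪ (⋃₀ (v 0) : ZFSet)) fun y => Hc (v 1) (v 2) y) l := by
      ext y
      rw [mem_imS, mem_imS]
      refine exists_congr fun l => and_congr_right fun hl => ?_
      rw [app_resS (ZFSet.mem_union.2 (Or.inl hl))]
    have e2 : (imS (v 0) fun l => resS (insert l l) fun l' => Hc (v 1) (v 2) l') =
        imS (v 0) fun l => resS (insert l l) fun l' =>
        app (resS (v 0 ∪ (⋃₀ (v 0) : ZFSet)) fun y => Hc (v 1) (v 2) y) l' := by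
      ext y
      rw [mem_imS, mem_imS]
      refine exists_congr fun l => and_congr_right fun hl => ?_
      have e3 : (resS (insert l l) fun l' => Hc (v 1) (v 2) l') = resS (insert l l) fun l' =>
          app (resS (v 0 ∪ (⋃₀ (v 0) : ZFSet)) fun y => Hc (v 1) (v 2) y) l' := by
        refine resS_congr fun l' hl' => ?_
        rw [app_resS]
        rcases ZFSet.mem_insert_iff.1 hl' with h | h
        · rw [h]
          exact ZFSet.mem_union.2 (Or.inl hl)
        · exact ZFSet.mem_union.2 (Or.inr (ZFSet.mem_sUnion.2 ⟨l, hl, h⟩))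
      rw [e3]
    rw [e1, e2]

/-- HA -/
theorem pf_HA (hDB : T_DB) : T_HA :=
  ⟨Hc_eq, (tm_Hc0 hDB).rn fun i => if i = 0 then 2 else if i = 1 then 0 else 1⟩

end Pool.Agent.H90.CA
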