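import Pool.Agent.H90.CA.GH
import Pool.Agent.H90.CA.HA

/-! HB: properties of the chain in `L_χ`. -/

set_option linter.unusedVariables false

open Ordinal Order Set
open scoped ZFSet

namespace Pool.Agent.H90.CA

open SF CAA

theorem rg_resS (a : V) (F : V → V) : rg (resS a F) = imS a F := by
  ext y
  rw [mem_rg, mem_imS]
  constructor
  · rintro ⟨x, hx⟩
    obtain ⟨h1, h2⟩ := pair_mem_resS.1 hx
    exact ⟨x, h1, h2.symm⟩
  · rintro ⟨x, hx, rfl⟩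
    exact ⟨x, pair_mem_resS.2 ⟨hx, rfl⟩⟩

/-- small subsets of `L_χ` are elements of `L_χ` -/
theorem small_mem (D : Dat) (hD : D.Ok) (C : V) (hC : C ∈ LA ∅ D.χ) (x : V)
    (hx : x ∈ LA ∅ D.θ) (hs : Sm D.M C x) (hxN : x ⊆ LA ∅ D.χ) : x ∈ LA ∅ D.χ := by
  obtain ⟨-, hχ, hord⟩ := lvl_height D.χ hD.grd.zχ
  rcases hs with rfl | ⟨f, hf, hon⟩
  · exact hD.grd.zχ.mempty
  · have hCM : C ∈ LA ∅ D.θ := Lh_mono hD.grd.χθ.le hC
    have hχM : D.χ.toZFSet ∈ LA ∅ D.θ := (hD.grd.ord _).2 hD.grd.χθ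
    obtain ⟨g, hgM, hg⟩ : ∃ g, g ∈ LA ∅ D.θ ∧ g = (ZFSet.prod C D.χ.toZFSet).sep fun z =>
        app f (fst z) ∈ LAS ∅ (snd z) ∧ ∀ δ ∈ snd z, app f (fst z) ∉ LAS ∅ δ := by
      refine ⟨_, ?_, rfl⟩
      have h1 : Dfb ZFm (fun _ v => app (v 1) (fst (v 0)) ∈ LAS ∅ (snd (v 0)) ∧
          ∀ δ ∈ snd (v 0), app (v 1) (fst (v 0)) ∉ LAS ∅ δ) := by
        refine (Dfb.mem (Tm.app (Tm.var 1) (Tm.fst (Tm.var 0)))
          (Tm.LAS Tm.empty (Tm.snd (Tm.var 0)))).and ?_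
        exact Dfb.ball (R := fun _ v => app (v 2) (fst (v 1)) ∉ LAS ∅ (v 0)) ktr_zfm
          (Tm.snd (Tm.var 0)) (Dfb.mem (Tm.app (Tm.var 2) (Tm.fst (Tm.var 1)))
            (Tm.LAS Tm.empty (Tm.var 0))).not
      exact (Tm.sep h1 (Tm.prod (Tm.var 1) (Tm.var 2))).1 (· ∈ LA ∅ D.θ) hD.grd.zfc.toZFm
        (cons f (cons C (cons D.χ.toZFSet fun _ => C)))
        (In.cons (In.cons (In.cons (fun _ => hCM) hχM) hCM) hf)
    have hlev : ∀ c ∈ C, ∃ δ < D.χ, ZFSet.pair c δ.toZFSet ∈ g ∧ app f c ∈ LA ∅ δ := by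
      intro c hc
      have h1 : app f c ∈ LA ∅ D.χ := hxN (app_mem hon.1 hc)
      obtain ⟨β, hβ, h2⟩ := (mem_Lh_limit hχ).1 h1
      have hne : {δ : Ordinal.{0} | app f c ∈ LA ∅ δ}.Nonempty := ⟨β, h2⟩
      have h3 : app f c ∈ LA ∅ (sInf {δ : Ordinal.{0} | app f c ∈ LA ∅ δ}) := csInf_mem hne
      have h4 : sInf {δ : Ordinal.{0} | app f c ∈ LA ∅ δ} < D.χ :=
        lt_of_le_of_lt (csInf_le' h2) hβ
      refine ⟨_, h4, ?_, h3⟩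
      rw [hg, ZFSet.mem_sep, fst_pair, snd_pair, LAS_ord]
      refine ⟨ZFSet.pair_mem_prod.2 ⟨hc, Ordinal.toZFSet_mem_toZFSet_iff.2 h4⟩, h3, ?_⟩
      intro δ hδ
      obtain ⟨d, hd, rfl⟩ := Ordinal.mem_toZFSet_iff.1 hδ
      rw [LAS_ord]
      intro h5
      exact notMem_of_lt_csInf' hd h5
    have hfun : ZFSet.IsFunc C D.χ.toZFSet g := by
      refine ⟨fun z hz => ?_, fun c hc => ?_⟩
      · rw [hg] at hz
        exact (ZFSet.mem_sep.1 hz).1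
      · obtain ⟨δ, hδ, h1, -⟩ := hlev c hc
        refine ⟨δ.toZFSet, h1, fun y hy => ?_⟩
        rw [hg, ZFSet.mem_sep, fst_pair, snd_pair] at hy h1
        obtain ⟨hy1, hy2, hy3⟩ := hy
        obtain ⟨-, h4, h5⟩ := h1
        obtain ⟨e, he, rfl⟩ := Ordinal.mem_toZFSet_iff.1 (ZFSet.pair_mem_prod.1 hy1).2
        rcases lt_trichotomy e δ with h6 | h6 | h6
        · exact absurd hy2 (h5 _ (Ordinal.toZFSet_mem_toZFSet_iff.2 h6))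
        · rw [h6]
        · exact absurd h4 (hy3 _ (Ordinal.toZFSet_mem_toZFSet_iff.2 h6))
    obtain ⟨β, hβ, h1⟩ := hD.grd.regχ C hC g hgM hfun
    refine hD.grd.subχ (LA ∅ β) (Lh_mem hβ) x hx fun y hy => ?_
    obtain ⟨c, hc, hcy⟩ := hon.2 y hy
    obtain ⟨δ, hδ, h2, h3⟩ := hlev c hc
    have h4 := h1 c hc
    rw [app_eq (svl_of_isFunc hfun) h2] at h4
    rw [app_eq (svl_of_isFunc hon.1) hcy] at h3
    exact Lh_mono (Ordinal.toZFSet_mem_toZFSet_iff.1 h4).le h3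

theorem toZFSet_succ (l : Ordinal.{0}) : (succ l).toZFSet = insert l.toZFSet l.toZFSet := by
  rw [Order.succ_eq_add_one, Ordinal.toZFSet_add_one]

theorem tm_Hc_rn (htm : Tm ZFm (fun _ v => Hc (v 0) (v 1) (v 2))) (i j k : ℕ) :
    Tm ZFm (fun _ v => Hc (v i) (v j) (v k)) :=
  htm.rn fun n => if n = 0 then i else if n = 1 then j else k

theorem terms1 (htm : Tm ZFm (fun _ v => Hc (v 0) (v 1) (v 2))) {M : V → Prop} (k : ZFm M)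
    {N a x : V} (hN : M N) (ha : M a) (hx : M x) : M (Hc N a x) :=
  (tm_Hc_rn htm 1 2 0).1 M k (cons x (cons N fun _ => a)) (In.cons (In.cons (fun _ => ha) hN) hx)

theorem terms2 (htm : Tm ZFm (fun _ v => Hc (v 0) (v 1) (v 2))) {M : V → Prop} (k : ZFm M)
    {N a x : V} (hN : M N) (ha : M a) (hx : M x) : M (resS x fun y => Hc N a y) := by
  have h : Tm ZFm (fun _ v => resS (v 0) fun x => Hc (v 1) (v 2) x) :=
    Tm.resS (g := fun _ u => Hc (u 2) (u 3) (u 0)) (Tm.var 0) (tm_Hc_rn htm 2 3 0)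
  exact h.1 M k (cons x (cons N fun _ => a)) (In.cons (In.cons (fun _ => ha) hN) hx)

theorem terms3 (htm : Tm ZFm (fun _ v => Hc (v 0) (v 1) (v 2))) {M : V → Prop} (k : ZFm M)
    {N a x : V} (hN : M N) (ha : M a) (hx : M x) :
    M (resS x fun y => ZFSet.pair y (Hc N a y)) := by
  have h : Tm ZFm (fun _ v => resS (v 0) fun x => ZFSet.pair x (Hc (v 1) (v 2) x)) :=
    Tm.resS (g := fun _ u => ZFSet.pair (u 0) (Hc (u 2) (u 3) (u 0))) (Tm.var 0)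
      (Tm.pair (Tm.var 0) (tm_Hc_rn htm 2 3 0))
  exact h.1 M k (cons x (cons N fun _ => a)) (In.cons (In.cons (fun _ => ha) hN) hx)

theorem terms4 (htm : Tm ZFm (fun _ v => Hc (v 0) (v 1) (v 2))) {M : V → Prop} (k : ZFm M)
    {N a x : V} (hN : M N) (ha : M a) (hx : M x) :
    M (resS x fun l => resS (insert l l) fun y => Hc N a y) := by
  have h0 : Tm ZFm (fun _ u => resS (insert (u 0) (u 0)) fun y => Hc (u 2) (u 3) y) :=
    Tm.resS (g := fun _ u => Hc (u 3) (u 4) (u 0)) (Tm.ins (Tm.var 0) (Tm.var 0))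
      (tm_Hc_rn htm 3 4 0)
  have h : Tm ZFm (fun _ v => resS (v 0) fun l => resS (insert l l) fun y =>
      Hc (v 1) (v 2) y) :=
    Tm.resS (g := fun _ u => resS (insert (u 0) (u 0)) fun y => Hc (u 2) (u 3) y) (Tm.var 0) h0
  exact h.1 M k (cons x (cons N fun _ => a)) (In.cons (In.cons (fun _ => ha) hN) hx)

theorem terms5 (htm : Tm ZFm (fun _ v => Hc (v 0) (v 1) (v 2))) {M : V → Prop} (k : ZFm M)
    {N a x : V} (hN : M N) (ha : M a) (hx : M x) : M (imS x fun y => Hc N a y) := by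
  have h : Tm ZFm (fun _ v => imS (v 0) fun x => Hc (v 1) (v 2) x) :=
    Tm.image (g := fun _ u => Hc (u 2) (u 3) (u 0)) (Tm.var 0) (tm_Hc_rn htm 2 3 0)
  exact h.1 M k (cons x (cons N fun _ => a)) (In.cons (In.cons (fun _ => ha) hN) hx)

theorem terms6 (htm : Tm ZFm (fun _ v => Hc (v 0) (v 1) (v 2))) {M : V → Prop} (k : ZFm M)
    {N a x : V} (hN : M N) (ha : M a) (hx : M x) :
    M (imS x fun l => resS (insert l l) fun y => Hc N a y) := by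
  have h0 : Tm ZFm (fun _ u => resS (insert (u 0) (u 0)) fun y => Hc (u 2) (u 3) y) :=
    Tm.resS (g := fun _ u => Hc (u 3) (u 4) (u 0)) (Tm.ins (Tm.var 0) (Tm.var 0))
      (tm_Hc_rn htm 3 4 0)
  have h : Tm ZFm (fun _ v => imS (v 0) fun l => resS (insert l l) fun y =>
      Hc (v 1) (v 2) y) :=
    Tm.image (g := fun _ u => resS (insert (u 0) (u 0)) fun y => Hc (u 2) (u 3) y) (Tm.var 0) h0
  exact h.1 M k (cons x (cons N fun _ => a)) (In.cons (In.cons (fun _ => ha) hN) hx)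

theorem terms7 {M : V → Prop} (k : ZFm M) {a : V} (ha : M a) : M (resS (nS 1) fun _ => a) := by
  have h : Tm ZFm (fun _ v => resS (nS 1) fun _ => v 0) :=
    Tm.resS (g := fun _ u => u 1) (Tm.nS 1) (Tm.var 1)
  exact h.1 M k (fun _ => a) fun _ => ha

/-- images of small sets are small -/
theorem sm_im (hDF : T_DF) {M : V → Prop} (k : ZFm M) {C : V} (hC : M C) (hG : Gd C) {x : V}
    {F : V → V} (hx : Sm M C x) (hF : M (resS x F)) : Sm M C (imS x F) := by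
  obtain ⟨-, -, -, -, -, -, DF7, -, -, -⟩ := hDF M k C hC hG
  have h1 := DF7 x (resS x F) hx hF (svl_resS x F) (dm_resS x F)
  rwa [rg_resS] at h1

theorem sm_sing (hDF : T_DF) {M : V → Prop} (k : ZFm M) {C : V} (hC : M C) (hG : Gd C) {a : V}
    (ha : M a) : Sm M C {a} := by
  have h1 : (nS 1 : V) ∈ C := hG.tr _ hG.om (mem_om.2 ⟨1, rfl⟩)
  have e1 : imS (nS 1) (fun _ => a) = {a} := by
    ext y
    rw [mem_imS, ZFSet.mem_singleton]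
    constructor
    · rintro ⟨x, -, h⟩
      exact h.symm
    · intro h
      refine ⟨nS 0, ?_, h.symm⟩
      rw [nS_succ]
      exact ZFSet.mem_insert_iff.2 (Or.inl rfl)
  rw [← e1]
  exact sm_im hDF k hC hG ((hDF M k C hC hG).1 _ h1) (terms7 k ha)

/-- the set of parameters at the step `m` -/
noncomputable def YY (N a : V) (m : Ordinal.{0}) : V :=
  {a} ∪ (⋃₀ (imS m.toZFSet fun l => Hc N a l) : ZFSet) ∪
    imS m.toZFSet fun l => resS (insert l l) fun l' => Hc N a l'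

theorem mem_YY {N a : V} {m : Ordinal.{0}} {y : V} : y ∈ YY N a m ↔ y = a ∨
    (∃ l < m, y ∈ Hc N a l.toZFSet) ∨
    ∃ l < m, y = resS (succ l).toZFSet fun x => Hc N a x := by
  unfold YY
  rw [ZFSet.mem_union, ZFSet.mem_union, ZFSet.mem_singleton, ZFSet.mem_sUnion, or_assoc]
  refine or_congr_right (or_congr ?_ ?_)
  · constructor
    · rintro ⟨z, hz, hyz⟩
      obtain ⟨x, hx, rfl⟩ := mem_imS.1 hz
      obtain ⟨l, hl, rfl⟩ := Ordinal.mem_toZFSet_iff.1 hx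
      exact ⟨l, hl, hyz⟩
    · rintro ⟨l, hl, h⟩
      exact ⟨_, mem_imS.2 ⟨l.toZFSet, Ordinal.toZFSet_mem_toZFSet_iff.2 hl, rfl⟩, h⟩
  · rw [mem_imS]
    constructor
    · rintro ⟨x, hx, rfl⟩
      obtain ⟨l, hl, rfl⟩ := Ordinal.mem_toZFSet_iff.1 hx
      exact ⟨l, hl, by rw [toZFSet_succ]⟩
    · rintro ⟨l, hl, rfl⟩
      exact ⟨l.toZFSet, Ordinal.toZFSet_mem_toZFSet_iff.2 hl, by rw [toZFSet_succ]⟩

theorem union_mem {M : V → Prop} (k : ZFm M) {x y : V} (hx : M x) (hy : M y) : M (x ∪ y) := by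
  have := k.union _ (k.pair _ _ hx hy)
  rwa [ZFSet.sUnion_pair] at this

theorem YY_mem (htm : Tm ZFm (fun _ v => Hc (v 0) (v 1) (v 2))) {M : V → Prop} (k : ZFm M)
    {N a : V} {m : Ordinal.{0}} (hN : M N) (ha : M a) (hm : M m.toZFSet) : M (YY N a m) := by
  unfold YY
  refine union_mem k (union_mem k ?_ (k.union _ (terms5 htm k hN ha hm))) (terms6 htm k hN ha hm)
  have := k.pair _ _ ha ha
  rwa [ZFSet.pair_eq_singleton] at this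

theorem YY_sm (htm : Tm ZFm (fun _ v => Hc (v 0) (v 1) (v 2))) (hDF : T_DF) (hDG : T_DG)
    {M : V → Prop} (k : ZFCm M) {C : V} (hC : M C) (hG : Gd C)
    {N a : V} {m : Ordinal.{0}} (hN : M N) (ha : M a) (hm : M m.toZFSet)
    (hms : Sm M C m.toZFSet) (hH : ∀ l < m, Sm M C (Hc N a l.toZFSet)) : Sm M C (YY N a m) := by
  have kk := k.toZFm
  obtain ⟨-, -, -, -, DF5, -, -, -, -, -⟩ := hDF M kk C hC hG
  unfold YY
  refine DF5 _ _ (DF5 _ _ (sm_sing hDF kk hC hG ha) ?_)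
    (sm_im hDF kk hC hG hms (terms4 htm kk hN ha hm))
  refine hDG M k C hC hG _ (terms5 htm kk hN ha hm)
    (sm_im hDF kk hC hG hms (terms2 htm kk hN ha hm)) ?_
  intro x hx
  obtain ⟨z, hz, rfl⟩ := mem_imS.1 hx
  obtain ⟨l, hl, rfl⟩ := Ordinal.mem_toZFSet_iff.1 hz
  exact hH l hl

/-- the sequences are in `L_χ` -/
theorem seq_mem (htm : Tm ZFm (fun _ v => Hc (v 0) (v 1) (v 2))) (hDF : T_DF) (D : Dat)
    (hD : D.Ok) {i : Ordinal.{0}} (hi : i < D.κ) (hGd : Gd (LA ∅ (D.γ i)))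
    (hCM : LA ∅ (D.γ i) ∈ LA ∅ D.θ) {a : V} (ha : a ∈ LA ∅ D.χ) (l : Ordinal.{0})
    (hl : succ l < D.μ i) (hH : ∀ l' ≤ l, Hc (LA ∅ D.χ) a l'.toZFSet ∈ LA ∅ D.χ) :
    (resS (succ l).toZFSet fun x => Hc (LA ∅ D.χ) a x) ∈ LA ∅ D.χ := by
  have kM : ZFm (· ∈ LA ∅ D.θ) := hD.grd.zfc.toZFm
  have hμκ := hD.sz.μκ i hi
  have hlM : (succ l).toZFSet ∈ LA ∅ D.θ :=
    (hD.grd.ord _).2 (hl.trans (hμκ.trans (hD.grd.κχ.trans hD.grd.χθ)))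
  have hNM : LA ∅ D.χ ∈ LA ∅ D.θ := Lh_mem hD.grd.χθ
  have haM : a ∈ LA ∅ D.θ := Lh_mono hD.grd.χθ.le ha
  refine small_mem D hD (LA ∅ (D.γ i)) (Lh_mem ((hD.sz.γκ i hi).trans hD.grd.κχ)) _
    (terms2 htm kM hNM haM hlM)
    (sm_im hDF kM hCM hGd (hD.sz.sm i hi _ hl) (terms3 htm kM hNM haM hlM)) ?_
  intro z hz
  obtain ⟨x, hx, rfl⟩ := mem_resS.1 hz
  obtain ⟨l', hl', rfl⟩ := Ordinal.mem_toZFSet_iff.1 hx
  refine hD.grd.zχ.mpair ?_ (hH l' (Order.lt_succ_iff.1 hl'))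
  exact ord_mem_Lh (fun y hy => absurd hy (ZFSet.notMem_empty y))
    ((hl'.trans hl).trans (hμκ.trans hD.grd.κχ))

/-- the property which is proved by induction -/
def PP (D : Dat) (i : Ordinal.{0}) (a : V) (m : Ordinal.{0}) : Prop :=
  Hc (LA ∅ D.χ) a m.toZFSet ∈ LA ∅ D.χ ∧ Hc (LA ∅ D.χ) a m.toZFSet ⊆ LA ∅ D.χ ∧
    Sm D.M (LA ∅ (D.γ i)) (Hc (LA ∅ D.χ) a m.toZFSet) ∧
    ElSub (Hc (LA ∅ D.χ) a m.toZFSet) (LA ∅ D.χ) ∧ a ∈ Hc (LA ∅ D.χ) a m.toZFSet ∧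
    (∀ l < m, Hc (LA ∅ D.χ) a l.toZFSet ⊆ Hc (LA ∅ D.χ) a m.toZFSet ∧
      (resS (succ l).toZFSet fun x => Hc (LA ∅ D.χ) a x) ∈ Hc (LA ∅ D.χ) a m.toZFSet) ∧
    (IsSuccLimit m → ∀ x ∈ Hc (LA ∅ D.χ) a m.toZFSet, ∃ l < m, x ∈ Hc (LA ∅ D.χ) a l.toZFSet)

theorem lim_step (hDE : T_DE) (D : Dat) {i : Ordinal.{0}} {a : V} (m : Ordinal.{0})
    (hlim : IsSuccLimit m) (ih : ∀ l < m, PP D i a l)
    (c4 : ∀ X, ElSub X (LA ∅ D.χ) → X.Nonempty → YY (LA ∅ D.χ) a m ⊆ X →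
      Dcl (LA ∅ D.χ) (YY (LA ∅ D.χ) a m) ⊆ X) (x : V)
    (hx : x ∈ Dcl (LA ∅ D.χ) (YY (LA ∅ D.χ) a m)) :
    ∃ l < m, x ∈ Hc (LA ∅ D.χ) a l.toZFSet := by
  have hmono : ∀ l l', l ≤ l' → l' < m →
      Hc (LA ∅ D.χ) a l.toZFSet ⊆ Hc (LA ∅ D.χ) a l'.toZFSet := by
    intro l l' h1 h2
    rcases h1.eq_or_lt with h3 | h3
    · rw [h3]
    · exact ((ih l' h2).2.2.2.2.2.1 l h3).1
  have h0 : (0 : Ordinal.{0}) < m := hlim.bot_lt
  have hU : ElSub (⋃₀ (imS m.toZFSet fun l => Hc (LA ∅ D.χ) a l) : ZFSet) (LA ∅ D.χ) := by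
    refine hDE.2 _ _ ?_ ?_ ?_
    · exact ⟨_, mem_imS.2 ⟨_, Ordinal.toZFSet_mem_toZFSet_iff.2 h0, rfl⟩⟩
    · intro X hX
      obtain ⟨z, hz, rfl⟩ := mem_imS.1 hX
      obtain ⟨l, hl, rfl⟩ := Ordinal.mem_toZFSet_iff.1 hz
      exact (ih l hl).2.2.2.1
    · intro X hX X' hX'
      obtain ⟨z, hz, rfl⟩ := mem_imS.1 hX
      obtain ⟨l, hl, rfl⟩ := Ordinal.mem_toZFSet_iff.1 hz
      obtain ⟨z', hz', rfl⟩ := mem_imS.1 hX'
      obtain ⟨l', hl', rfl⟩ := Ordinal.mem_toZFSet_iff.1 hz'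
      rcases le_total l l' with h | h
      · exact Or.inl (hmono l l' h hl')
      · exact Or.inr (hmono l' l h hl)
  have memU : ∀ l < m, ∀ y ∈ Hc (LA ∅ D.χ) a l.toZFSet,
      y ∈ (⋃₀ (imS m.toZFSet fun l => Hc (LA ∅ D.χ) a l) : ZFSet) := fun l hl y hy =>
    ZFSet.mem_sUnion.2
      ⟨_, mem_imS.2 ⟨l.toZFSet, Ordinal.toZFSet_mem_toZFSet_iff.2 hl, rfl⟩, hy⟩
  have haU := memU 0 h0 a (ih 0 h0).2.2.2.2.1
  have h1 : Dcl (LA ∅ D.χ) (YY (LA ∅ D.χ) a m) ⊆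
      (⋃₀ (imS m.toZFSet fun l => Hc (LA ∅ D.χ) a l) : ZFSet) := by
    refine c4 _ hU ⟨_, haU⟩ ?_
    intro y hy
    rcases mem_YY.1 hy with rfl | ⟨l, hl, h⟩ | ⟨l, hl, rfl⟩
    · exact haU
    · exact memU l hl y h
    · have h2 : succ l < m := hlim.succ_lt hl
      exact memU (succ l) h2 _ ((ih (succ l) h2).2.2.2.2.2.1 l (Order.lt_succ l)).2
  obtain ⟨z, hz, hxz⟩ := ZFSet.mem_sUnion.1 (h1 hx)
  obtain ⟨w, hw, rfl⟩ := mem_imS.1 hz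
  obtain ⟨l, hl, rfl⟩ := Ordinal.mem_toZFSet_iff.1 hw
  exact ⟨l, hl, hxz⟩

/-- HB -/
theorem pf_HB (hHA : T_HA) (hDC : T_DC) (hDE : T_DE) (hDF : T_DF) (hDG : T_DG)
    (hGH : T_GH) : T_HB := by
  intro D hD i hi ρ hρ a ha m hm
  obtain ⟨hrec, htm⟩ := hHA
  obtain ⟨hG, -, -⟩ := hGH D hD
  obtain ⟨hGd, hCM, -, -, -⟩ := hG i hi
  have hC : LA ∅ (D.γ i) ∈ LA ∅ D.χ := Lh_mem ((hD.sz.γκ i hi).trans hD.grd.κχ)
  have kM : ZFCm (· ∈ LA ∅ D.θ) := hD.grd.zfc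
  have kN : ZFm (· ∈ LA ∅ D.χ) := hD.grd.zχ
  have hNM : LA ∅ D.χ ∈ LA ∅ D.θ := Lh_mem hD.grd.χθ
  have haM : a ∈ LA ∅ D.θ := Lh_mono hD.grd.χθ.le ha
  induction m using WellFoundedLT.induction with
  | _ m ih' =>
    have ih : ∀ l < m, PP D i a l := fun l hl => ih' l hl (hl.le.trans hm)
    clear ih'
    have hmμ : m < D.μ i := lt_of_le_of_lt hm hρ
    have hmM : m.toZFSet ∈ LA ∅ D.θ := (hD.grd.ord m).2
      (hmμ.trans ((hD.sz.μκ i hi).trans (hD.grd.κχ.trans hD.grd.χθ)))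
    have hmS := hD.sz.sm i hi m hmμ
    have hHm : Hc (LA ∅ D.χ) a m.toZFSet = Dcl (LA ∅ D.χ) (YY (LA ∅ D.χ) a m) := hrec _ _ _
    have hYN : YY (LA ∅ D.χ) a m ⊆ LA ∅ D.χ := by
      intro y hy
      rcases mem_YY.1 hy with rfl | ⟨l, hl, h⟩ | ⟨l, hl, rfl⟩
      · exact ha
      · exact (ih l hl).2.1 h
      · exact seq_mem htm hDF D hD hi hGd hCM ha l
          (lt_of_le_of_lt (Order.succ_le_of_lt hl) hmμ) fun l' hl' =>
            (ih l' (lt_of_le_of_lt hl' hl)).1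
    have hYM : YY (LA ∅ D.χ) a m ∈ LA ∅ D.θ := YY_mem htm kM.toZFm hNM haM hmM
    have hYS : Sm (· ∈ LA ∅ D.θ) (LA ∅ (D.γ i)) (YY (LA ∅ D.χ) a m) :=
      YY_sm htm hDF hDG kM hCM hGd hNM haM hmM hmS fun l hl => (ih l hl).2.2.1
    obtain ⟨c1, c2, c3, c4⟩ := hDC (LA ∅ D.χ) ∅ D.χ kN kN.mempty rfl _ hYN (Or.inl rfl)
    have hsub : Hc (LA ∅ D.χ) a m.toZFSet ⊆ LA ∅ D.χ := by
      rw [hHm]
      exact c1.1
    have hSm : Sm (· ∈ LA ∅ D.θ) (LA ∅ (D.γ i)) (Hc (LA ∅ D.χ) a m.toZFSet) := by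
      rw [hHm]
      obtain ⟨-, -, -, -, -, -, -, DF8, -, -⟩ := hDF (· ∈ LA ∅ D.θ) kM.toZFm _ hCM hGd
      exact DF8 _ _ hNM hYM hYS
    refine ⟨small_mem D hD _ hC _ (terms1 htm kM.toZFm hNM haM hmM) hSm hsub, hsub, hSm,
      ?_, ?_, ?_, ?_⟩
    · rw [hHm]
      exact c1
    · rw [hHm]
      exact c3 (mem_YY.2 (Or.inl rfl))
    · intro l hl
      rw [hHm]
      exact ⟨fun y hy => c3 (mem_YY.2 (Or.inr (Or.inl ⟨l, hl, hy⟩))),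
        c3 (mem_YY.2 (Or.inr (Or.inr ⟨l, hl, rfl⟩)))⟩
    · intro hlim x hx
      rw [hHm] at hx
      exact lim_step hDE D m hlim ih c4 x hx

end Pool.Agent.H90.CA
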